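import Pool.Agent.H73.TF.Top

/-!
# Termination of flips on hypersurfaces in products of projective spaces

Let `X` be a normal hypersurface of the degrees `d 1, ..., d r` in the product of the projective
spaces of the dimensions `n 1, ..., n r`. It is given by its generic point `x` with the homogeneous
coordinates `x i k` in the function field `K` of `X`, where `x i 0 = 1`, and by its equation `F = 0`.

Suppose that the degree of `X` in every factor which is a projective line is zero or two; the other
degrees are arbitrary. For a `Quadratic` factor `j` (a projective line in which the degree is two)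
the equation is `F = A j * X1 ^ 2 + B j * X1 * X0 + C j * X0 ^ 2`, with forms `A j`, `B j`, `C j` in
the coordinates of the other factors, and the projection of `X` to the other factors is generically a
double cover. It is assumed that the forms `A j`, `B j`, `C j` do not vanish together along a prime
divisor on `X`, but do vanish together at some point of the variety `X`; so the covering involution
is an isomorphism in codimension one, and it is not regular. For a general `F` all `d i ≥ 1` and
`dim X ≥ 3` these conditions are satisfied. The projections of `X` have the hyperplane classes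
`D 1, ..., D r`. If `X` is smooth, `dim X ≥ 3` and all `d i ≥ 1` they are a basis of the divisor classes
(Lefschetz; this remark is not used and not proved here).

If there are at least two `Quadratic` factors then the covering involutions generate in general an
infinite group (a free product of groups of order two), and `X` has infinitely many small
modifications (this remark is not used and not proved here).

**Divisors.** The coefficient of the pullback of `D i` at a prime divisor `P` over `X` (a divisorial
place of `K`) is `hyperplane x i P`: minus the minimal order at `P` of the homogeneous coordinates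
`x i k`.

**Small modifications.** A projective variety `X'` which is isomorphic to `X` in codimension one, on
which the strict transforms of the `D i` are `ℚ`-Cartier, is described by the coefficients
`δ' i P` of the pullbacks of these strict transforms at the prime divisors `P` over `X`. The integral
combinations of the `D i` have the same sections on `X` and on `X'`, and the rational combinations
near one of them (an ample one, which exists if the `D i` generate the divisor classes) are
semiample on `X'`. This is `IsSmallModification`.

**Flips.** If `X'` and `X''` are small modifications and `X''` is the flip of `X'` for the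
contraction `X' → Z` of an extremal ray, then the intersection numbers `ℓ i` of this ray with the `D i`
are such that the semiample combinations on `X'` have nonnegative, those on `X''` nonpositive
intersection number with the ray, and that the pullbacks of ample divisors on `Z`, that is all
combinations near one of them which have intersection number zero with the ray, are semiample on
`X'` and on `X''`. The flip is one for the combination `∑ i, w i * D i` if the intersection number of
this combination with the ray is negative. This is `IsFlip`.

**The theorem.** Let `κ` be a real combination of the `D i` with `κ j = 0` for the `Quadratic` factors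
`j`, for instance the canonical class of `X`, `κ i = d i - n i - 1`. Let `Δ = ∑ k, c k * E k` be any
effective real combination of classes of effective divisors `E k`. Then every sequence of flips for
`κ + Δ` which starts with `X` has less than `∏ k, (⌊(∑ l, c l * deg (E l)) / c k⌋ + 1)` steps, where
`deg E = ∑ i, weight n d i * E i`, and the lengths of the sequences of flips which start with any
other small modification of `X` are bounded.

So if `X` is `ℚ`-factorial and the `D i` span the numerical classes, every sequence of flips for
`K_X + Δ` is finite, for every pair `(X, Δ)` with an effective boundary `Δ` with real coefficients, and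
in particular for all klt pairs for which `K_X + Δ` is not pseudo-effective. (The contractions of
extremal rays over a projective variety `S` are contractions of extremal rays, so this is also true
for the flips over `S`.) If `d i ≤ n i` for some factor `i` then `K_X + Δ` is not
pseudo-effective for all small `Δ`. The minimal model program with scaling and the big boundaries
(Birkar, Cascini, Hacon, McKernan) give the termination of some sequences of flips; here all
sequences are finite, although `X` has infinitely many small modifications.

For Calabi-Yau hypersurfaces (`d i = n i + 1` for all `i`) the movable cone and the involutions have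
been studied by Cantat and Oguiso, and by Yáñez for complete intersections; there `K_X + Δ` is
pseudo-effective.
-/

set_option autoImplicit false

open FF MvPolynomial Pool.Agent.W602.GT Pool.Agent.Y172 Pool.Agent.H73.TF

namespace Pool.Agent.Results.MP_89a3f8_ag.ProductHypersurfaces

/-- The factor number `j` is a projective line, and the hypersurface has degree two in it. -/
def Quadratic {r : ℕ} (n d : Fin r → ℕ) (j : Fin r) : Prop := n j = 1 ∧ d j = 2

/-- The weight of the `i`-th hyperplane class. -/
noncomputable def weight {r : ℕ} (n d : Fin r → ℕ) (i : Fin r) : ℝ :=
  open Classical in if Quadratic n d i then 1 else 3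

variable {K : Type} [Field K] [Algebra ℂ K] {r : ℕ} {n : Fin r → ℕ}

/-- The coefficient at `P` of the pullback of the `i`-th hyperplane class. -/
noncomputable def hyperplane (x : ∀ i, Fin (n i + 1) → K) (i : Fin r) (P : Place ℂ K) : ℚ :=
  - (minimalOrder (x i) P : ℚ)

/-- The subfield generated by the coordinates of the factors different from `j`. -/
noncomputable def others (x : ∀ i, Fin (n i + 1) → K) (j : Fin r) : IntermediateField ℂ K :=
  IntermediateField.adjoin ℂ {a | ∃ i, i ≠ j ∧ ∃ k, a = x i k}

theorem others_eq (x : ∀ i, Fin (n i + 1) → K) (j : Fin r) : others x j = FT x {j} := by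
  unfold others FT
  congr 1
  ext a
  simp only [Set.mem_setOf_eq, Finset.mem_singleton]

/-- **Termination of flips on hypersurfaces in products of projective spaces.** -/
theorem result (hn : ∀ i, 1 ≤ n i) (x : ∀ i, Fin (n i + 1) → K) (hx : ∀ i, x i 0 = 1)
    {M : ℕ} (e : Fin (M + 1) ≃ (∀ i, Fin (n i + 1))) (hX : NormalModel (segre e x))
    {N : ℕ} (hN : N + 1 = ∑ i, n i) (hdim : Algebra.trdeg ℂ K = N)
    (d : Fin r → ℕ) (F : MvPolynomial (Σ i : Fin r, Fin (n i + 1)) ℂ) (hF : value x F = 0)
    (hd : ∀ i, n i = 1 → d i = 0 ∨ d i = 2)
    (A B C : Fin r → MvPolynomial (Σ i : Fin r, Fin (n i + 1)) ℂ)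
    (hABC : ∀ j, Quadratic n d j → IsForm (Function.update d j 0) (A j) ∧
      IsForm (Function.update d j 0) (B j) ∧ IsForm (Function.update d j 0) (C j) ∧
      F = A j * X ⟨j, Fin.last (n j)⟩ ^ 2 + B j * X ⟨j, Fin.last (n j)⟩ * X ⟨j, 0⟩ +
        C j * X ⟨j, 0⟩ ^ 2)
    (hirr : ∀ j, Quadratic n d j → x j (Fin.last (n j)) ∉ others x j)
    (hcod : ∀ j, Quadratic n d j → ∀ P, IsPrimeDivisor (segre e x) P →
      ¬ (VanishesAt x (Function.update d j 0) (A j) P ∧ VanishesAt x (Function.update d j 0) (B j) P ∧
        VanishesAt x (Function.update d j 0) (C j) P))
    (hflop : ∀ j, Quadratic n d j → ∃ P, Divisorial N P ∧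
      VanishesAt x (Function.update d j 0) (A j) P ∧ VanishesAt x (Function.update d j 0) (B j) P ∧
        VanishesAt x (Function.update d j 0) (C j) P)
    (hne : ∃ j, Quadratic n d j)
    (hbig : (∃ i, ¬ Quadratic n d i ∧ 1 ≤ d i) ∨
      ∃ j₁ j₂ j₃, j₁ ≠ j₂ ∧ j₁ ≠ j₃ ∧ j₂ ≠ j₃ ∧ Quadratic n d j₁ ∧ Quadratic n d j₂ ∧ Quadratic n d j₃)
    (κ : Fin r → ℝ) (hκ : ∀ j, Quadratic n d j → κ j = 0)
    {q : ℕ} (E : Fin q → Fin r → ℤ) (hE : ∀ k, ∃ f, f ≠ 0 ∧ IsSection N (hyperplane x) (E k) f)
    (c : Fin q → ℝ) (hc : ∀ k, 0 < c k)
    (δ₀ : Fin r → Place ℂ K → ℚ) (hδ₀ : IsSmallModification N (hyperplane x) δ₀) :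
    ∃ b : ℕ, (δ₀ = hyperplane x →
        b = ∏ k, (⌊(∑ l, c l * ∑ i, weight n d i * E l i) / c k⌋₊ + 1)) ∧
      ∀ (L : ℕ) (δs : ℕ → Fin r → Place ℂ K → ℚ), δs 0 = δ₀ →
        (∀ j ≤ L, IsSmallModification N (hyperplane x) (δs j)) →
        (∀ j < L, IsFlip N (fun i => κ i + ∑ k, c k * E k i) (δs j) (δs (j + 1))) → L < b := by
  have hh : hyperplane x = dl x := rfl
  have hw : ∀ i, weight n d i = (th n d i : ℝ) := by
    intro i
    unfold weight th
    by_cases h : Quadratic n d i
    · rw [if_pos h, if_pos (show n i = 1 ∧ d i = 2 from h)]
      norm_num
    · rw [if_neg h, if_neg (show ¬ (n i = 1 ∧ d i = 2) from h)]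
      norm_num
  have hH : Hyp N d x e A B C :=
    { hn := hn
      hx0 := hx
      hdim := hdim
      hN := hN
      hX := hX
      hd := hd
      hA := fun j h1 h2 => (hABC j ⟨h1, h2⟩).1
      hB := fun j h1 h2 => (hABC j ⟨h1, h2⟩).2.1
      hC := fun j h1 h2 => (hABC j ⟨h1, h2⟩).2.2.1
      rel := by
        intro j h1 h2
        have h3 := (hABC j ⟨h1, h2⟩).2.2.2
        rw [h3] at hF
        unfold value at hF ⊢
        simp only [map_add, map_mul, map_pow, aeval_X, hx, mul_one, one_pow] at hF
        exact hF
      irr := by
        intro j h1 h2
        rw [← others_eq]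
        exact hirr j ⟨h1, h2⟩
      cod := fun j h1 h2 => hcod j ⟨h1, h2⟩
      flop := fun j h1 h2 => hflop j ⟨h1, h2⟩
      big := by
        rcases hbig with h | ⟨j₁, j₂, j₃, h12, h13, h23, q1, q2, q3⟩
        · exact Or.inl h
        · refine Or.inr ?_
          have h3 : ({j₁, j₂, j₃} : Finset (Fin r)) ⊆
              Finset.univ.filter fun i : Fin r => n i = 1 ∧ d i = 2 := by
            intro i hi
            simp only [Finset.mem_insert, Finset.mem_singleton] at hi
            rw [Finset.mem_filter]
            refine ⟨Finset.mem_univ _, ?_⟩
            rcases hi with rfl | rfl | rfl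
            · exact q1
            · exact q2
            · exact q3
          have h4 : ({j₁, j₂, j₃} : Finset (Fin r)).card = 3 :=
            Finset.card_eq_three.2 ⟨j₁, j₂, j₃, h12, h13, h23, rfl⟩
          rw [← h4]
          exact Finset.card_le_card h3
      ne := hne }
  rw [hh] at hE hδ₀ ⊢
  obtain ⟨m1, m2⟩ := hH.main (κ := κ) (fun j h1 h2 => hκ j ⟨h1, h2⟩) E hE c hc
  by_cases h0 : δ₀ = dl x
  · refine ⟨∏ k, (⌊(∑ l, c l * ∑ i, weight n d i * E l i) / c k⌋₊ + 1), fun _ => rfl, ?_⟩
    intro L δs hs
    simp only [hw]
    exact m1 L δs (hs.trans h0)
  · obtain ⟨b, hb⟩ := m2 δ₀ hδ₀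
    exact ⟨b, fun h => absurd h h0, hb⟩

end Pool.Agent.Results.MP_89a3f8_ag.ProductHypersurfaces
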