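import Pool.Agent.H73.TF.Top
import Pool.Agent.H73.TF.Uni

/-!
# The sequences of flips on hypersurfaces in products of projective spaces are unique

Let `X` be a normal hypersurface of the degrees `d 1, ..., d r` in the product of the projective
spaces of the dimensions `n 1, ..., n r`, given by its generic point `x` with the homogeneous
coordinates `x i k` in the function field `K` of `X`, `x i 0 = 1`, and by its equation `F = 0`. The
degree of `X` in every factor which is a projective line is zero or two. For a `Quadratic` factor `j`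
(a projective line in which the degree is two) the equation is
`F = A j * X1 ^ 2 + B j * X1 * X0 + C j * X0 ^ 2`, and the forms `A j`, `B j`, `C j` do not vanish
together along a prime divisor on `X`, but do vanish together at some point of the variety `X`. These
are the varieties of `ProductHypersurfaces`, where it was shown that every sequence of flips for
`K_X + Δ` is finite. The hyperplane classes `D 1, ..., D r` are a basis of the divisor classes if `X`
is smooth of dimension at least three and all `d i ≥ 1` (Lefschetz; this remark is not used and not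
proved here). The canonical class is `κ i = d i - n i - 1`, so that `κ j = 0` for the `Quadratic`
factors `j`.

**The theorem.** Let `w` be a real combination of the `D i`. A sequence of flips for `w` is described
by `IsSequence`, where the small modifications of `X` are given by the coefficients of the strict
transforms of the `D i` at the prime divisors over `X` (see `IsSmallModification`, `IsFlip`).

(1) *Dichotomy.* Either every small modification of `X` has a flip for `w`, so that all the sequences
of flips for `w`, whatever their start is, go on for ever (`Endless`), or for every small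
modification `X'` of `X` all sequences of flips for `w` which start with `X'` are initial segments of
one finite sequence (`OneSequence`).

(2) *Pairs.* The second case holds for `w = κ + ∑ k, c k * E k`, where the `E k` are effective
integral classes and the `c k` positive real numbers. So for every pair `(X', Δ)`, with `X'` any small
modification of `X` and any effective boundary `Δ`, there is only one way to run the part of the
minimal model program for `K + Δ` which consists of flips. If it starts with `X` and has `L` steps then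
`b * L * (L - 1) / 2 ≤ ∑ l, c l * deg (E l)` for `b = min (c k)`, where
`deg E = ∑ i, weight n d i * E i`; the bound of `ProductHypersurfaces` is the product of the numbers
`⌊(∑ l, c l * deg (E l)) / c k⌋ + 1`.

(3) *The form `K + Δ` of the class is necessary.* If `w j < 0` and `w j + w k ≤ 0` for two `Quadratic`
factors `j ≠ k`, for instance for `w = κ - t * D j + t * D k + s * D i` with `t > 0` and any `s`, then
the flips for `w` are endless.

(4) *There is no uniform bound.* Let there be at least two `Quadratic` factors. For every `L` there is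
an effective integral class `E` such that for every real `c > 0` the maximal sequence of flips for
`κ + c * E` which starts with `X` has exactly `L` steps. If `i` is not `Quadratic` and
`κ i + c * E i < 0` then `κ + c * E` is not pseudo-effective. So if `κ i < 0` for some such `i`, that is
`d i ≤ n i`, then the pairs `(X, c * E)` with `K_X + c * E` not pseudo-effective, which are klt for
small `c` (if `X` is klt), have arbitrarily long sequences of flips, on one and the same `X`.
-/

set_option autoImplicit false

open FF MvPolynomial Pool.Agent.W602.GT Pool.Agent.Y172 Pool.Agent.H73.TF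

namespace Pool.Agent.Results.MP_89a3f8_ag.UniqueFlips

/-- The factor number `j` is a projective line, and the hypersurface has degree two in it. -/
def Quadratic {r : ℕ} (n d : Fin r → ℕ) (j : Fin r) : Prop := n j = 1 ∧ d j = 2

/-- The weight of the `i`-th hyperplane class. -/
noncomputable def weight {r : ℕ} (n d : Fin r → ℕ) (i : Fin r) : ℝ :=
  open Classical in if Quadratic n d i then 1 else 3

variable {K : Type} [Field K] [Algebra ℂ K] {r : ℕ} {n : Fin r → ℕ}

/-- The coefficient at `P` of the pullback of the `i`-th hyperplane class. -/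
noncomputable def hyperplane (x : ∀ i, Fin (n i + 1) → K) (i : Fin r) (P : Place ℂ K) : ℚ :=
  - (minimalOrder (x i) P : ℚ)

/-- The subfield generated by the coordinates of the factors different from `j`. -/
noncomputable def others (x : ∀ i, Fin (n i + 1) → K) (j : Fin r) : IntermediateField ℂ K :=
  IntermediateField.adjoin ℂ {a | ∃ i, i ≠ j ∧ ∃ k, a = x i k}

theorem others_eq (x : ∀ i, Fin (n i + 1) → K) (j : Fin r) : others x j = FT x {j} := by
  unfold others FT
  congr 1
  ext a
  simp only [Set.mem_setOf_eq, Finset.mem_singleton]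

/-- The real combination `∑ i, w i * D i` is pseudo-effective: it is a limit of nonnegative real
combinations of integral combinations which have nonzero sections. -/
def Pseudoeffective (N : ℕ) (δ : Fin r → Place ℂ K → ℚ) (w : Fin r → ℝ) : Prop :=
  ∀ ε : ℝ, 0 < ε → ∃ (q : ℕ) (E : Fin q → Fin r → ℤ) (c : Fin q → ℝ), (∀ k, 0 ≤ c k) ∧
    (∀ k, ∃ f, f ≠ 0 ∧ IsSection N δ (E k) f) ∧ ∀ i, |∑ k, c k * E k i - w i| ≤ ε

/-- **Uniqueness of the sequences of flips, and the dichotomy.** -/
theorem result (hn : ∀ i, 1 ≤ n i) (x : ∀ i, Fin (n i + 1) → K) (hx : ∀ i, x i 0 = 1)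
    {M : ℕ} (e : Fin (M + 1) ≃ (∀ i, Fin (n i + 1))) (hX : NormalModel (segre e x))
    {N : ℕ} (hN : N + 1 = ∑ i, n i) (hdim : Algebra.trdeg ℂ K = N)
    (d : Fin r → ℕ) (F : MvPolynomial (Σ i : Fin r, Fin (n i + 1)) ℂ) (hF : value x F = 0)
    (hd : ∀ i, n i = 1 → d i = 0 ∨ d i = 2)
    (A B C : Fin r → MvPolynomial (Σ i : Fin r, Fin (n i + 1)) ℂ)
    (hABC : ∀ j, Quadratic n d j → IsForm (Function.update d j 0) (A j) ∧
      IsForm (Function.update d j 0) (B j) ∧ IsForm (Function.update d j 0) (C j) ∧
      F = A j * X ⟨j, Fin.last (n j)⟩ ^ 2 + B j * X ⟨j, Fin.last (n j)⟩ * X ⟨j, 0⟩ +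
        C j * X ⟨j, 0⟩ ^ 2)
    (hirr : ∀ j, Quadratic n d j → x j (Fin.last (n j)) ∉ others x j)
    (hcod : ∀ j, Quadratic n d j → ∀ P, IsPrimeDivisor (segre e x) P →
      ¬ (VanishesAt x (Function.update d j 0) (A j) P ∧ VanishesAt x (Function.update d j 0) (B j) P ∧
        VanishesAt x (Function.update d j 0) (C j) P))
    (hflop : ∀ j, Quadratic n d j → ∃ P, Divisorial N P ∧
      VanishesAt x (Function.update d j 0) (A j) P ∧ VanishesAt x (Function.update d j 0) (B j) P ∧
        VanishesAt x (Function.update d j 0) (C j) P)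
    (hne : ∃ j, Quadratic n d j)
    (hbig : (∃ i, ¬ Quadratic n d i ∧ 1 ≤ d i) ∨
      ∃ j₁ j₂ j₃, j₁ ≠ j₂ ∧ j₁ ≠ j₃ ∧ j₂ ≠ j₃ ∧ Quadratic n d j₁ ∧ Quadratic n d j₂ ∧
        Quadratic n d j₃) :
    (∀ w : Fin r → ℝ, ¬ Endless N (hyperplane x) w ↔
      ∀ δ₀, IsSmallModification N (hyperplane x) δ₀ →
        ∃ L, OneSequence N (hyperplane x) w δ₀ L) ∧
    (∀ (κ : Fin r → ℝ), (∀ j, Quadratic n d j → κ j = 0) →
      (∀ (q : ℕ) (E : Fin q → Fin r → ℤ) (c : Fin q → ℝ),
        (∀ k, ∃ f, f ≠ 0 ∧ IsSection N (hyperplane x) (E k) f) → (∀ k, 0 < c k) →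
        ∀ δ₀, IsSmallModification N (hyperplane x) δ₀ →
          ∃ L, OneSequence N (hyperplane x) (fun i => κ i + ∑ k, c k * E k i) δ₀ L ∧
            (δ₀ = hyperplane x → ∀ b : ℝ, 0 < b → (∀ k, b ≤ c k) →
              b * (L * (L - 1) / 2) ≤ ∑ l, c l * ∑ i, weight n d i * E l i)) ∧
      ∀ j k, Quadratic n d j → Quadratic n d k → j ≠ k → ∀ L : ℕ, ∃ E : Fin r → ℤ,
        (∃ f, f ≠ 0 ∧ IsSection N (hyperplane x) E f) ∧
        (∀ c : ℝ, 0 < c →
          OneSequence N (hyperplane x) (fun i => κ i + c * E i) (hyperplane x) L) ∧
        ∀ i, ¬ Quadratic n d i → ∀ c : ℝ, κ i + c * E i < 0 →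
          ¬ Pseudoeffective N (hyperplane x) fun i => κ i + c * E i) ∧
    ∀ (w : Fin r → ℝ) (j k : Fin r), Quadratic n d j → Quadratic n d k → j ≠ k → w j < 0 →
      w j + w k ≤ 0 → Endless N (hyperplane x) w := by
  have hh : hyperplane x = dl x := rfl
  have hw : ∀ i, weight n d i = (th n d i : ℝ) := by
    intro i
    unfold weight th
    by_cases h : Quadratic n d i
    · rw [if_pos h, if_pos (show n i = 1 ∧ d i = 2 from h)]
      norm_num
    · rw [if_neg h, if_neg (show ¬ (n i = 1 ∧ d i = 2) from h)]
      norm_num
  have hH : Hyp N d x e A B C :=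
    { hn := hn
      hx0 := hx
      hdim := hdim
      hN := hN
      hX := hX
      hd := hd
      hA := fun j h1 h2 => (hABC j ⟨h1, h2⟩).1
      hB := fun j h1 h2 => (hABC j ⟨h1, h2⟩).2.1
      hC := fun j h1 h2 => (hABC j ⟨h1, h2⟩).2.2.1
      rel := by
        intro j h1 h2
        have h3 := (hABC j ⟨h1, h2⟩).2.2.2
        rw [h3] at hF
        unfold value at hF ⊢
        simp only [map_add, map_mul, map_pow, aeval_X, hx, mul_one, one_pow] at hF
        exact hF
      irr := by
        intro j h1 h2
        rw [← others_eq]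
        exact hirr j ⟨h1, h2⟩
      cod := fun j h1 h2 => hcod j ⟨h1, h2⟩
      flop := fun j h1 h2 => hflop j ⟨h1, h2⟩
      big := by
        rcases hbig with h | ⟨j₁, j₂, j₃, h12, h13, h23, q1, q2, q3⟩
        · exact Or.inl h
        · refine Or.inr ?_
          have h3 : ({j₁, j₂, j₃} : Finset (Fin r)) ⊆
              Finset.univ.filter fun i : Fin r => n i = 1 ∧ d i = 2 := by
            intro i hi
            simp only [Finset.mem_insert, Finset.mem_singleton] at hi
            rw [Finset.mem_filter]
            refine ⟨Finset.mem_univ _, ?_⟩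
            rcases hi with rfl | rfl | rfl
            · exact q1
            · exact q2
            · exact q3
          have h4 : ({j₁, j₂, j₃} : Finset (Fin r)).card = 3 :=
            Finset.card_eq_three.2 ⟨j₁, j₂, j₃, h12, h13, h23, rfl⟩
          rw [← h4]
          exact Finset.card_le_card h3
      ne := hne }
  rw [hh]
  have hR := hH.refl
  have hα : ∀ j ∈ {j | n j = 1 ∧ d j = 2}, ∀ k ∈ {j | n j = 1 ∧ d j = 2}, j ≠ k →
      al d j k = 2 := by
    intro j _ k hk hjk
    unfold al
    rw [if_neg (Ne.symm hjk), hk.2]
    rfl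
  refine ⟨fun w => hR.dichotomy hα w, fun κ hκ => ?_, fun w j k hj hk hjk h1 h2 =>
    hR.endless_pair hα hj hk hjk h1 h2⟩
  have hκ' : ∀ j ∈ {j | n j = 1 ∧ d j = 2}, κ j = 0 := fun j hj => hκ j hj
  refine ⟨fun q E c hE hc δ₀ hδ₀ => ?_, fun j k hj hk hjk L => ?_⟩
  · have hne' := hR.one_of_pair hκ' E hE c hc
    by_cases h0 : δ₀ = dl x
    · obtain ⟨m, hm⟩ := hR.ends_of_not_endless hα hne' [] (by simp)
      refine ⟨m, ?_, fun _ b hb hbc => ?_⟩
      · exact hR.oneSequence hα (w₀ := []) (by simp) hm hδ₀ (h0 ▸ Eqv.refl' _)
      · simp only [hw]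
        exact (hR.quad hα hκ' c hb hbc m E hE hm).1
    · obtain ⟨L, hL⟩ := (hR.dichotomy hα _).1 hne' δ₀ hδ₀
      exact ⟨L, hL, fun h => absurd h h0⟩
  · obtain ⟨E, t, ht, hE, -, -, hends⟩ := hR.long hα hκ' L j hj k hk hjk
    refine ⟨E, hE, fun c hc => ?_, fun i hi c hneg hpe => ?_⟩
    · exact hR.oneSequence hα (w₀ := []) (by simp) (hends c hc)
        (hR.small_mo (w := []) (by simp)) (Eqv.refl' _)
    · obtain ⟨q, E', c', hc', hE', happ⟩ := hpe (-(κ i + c * E i) / 2) (by linarith)
      have h1 : 0 ≤ ∑ k, c' k * (E' k i : ℝ) := by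
        refine Finset.sum_nonneg fun k _ => mul_nonneg (hc' k) ?_
        obtain ⟨f, hf0, hf⟩ := hE' k
        exact_mod_cast hR.fib i hi (E' k) f hf0 hf
      have h2 := (abs_le.1 (happ i)).2
      linarith

end Pool.Agent.Results.MP_89a3f8_ag.UniqueFlips
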